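import Pool.Agent.Helper99.NQ.Defs

/-!
# The numbers
-/

set_option autoImplicit false

namespace Pool.Agent.Helper70.NQ

open Pool.Agent.Helper99.NQ Filter

theorem pow_small {x : ℝ} (h0 : 0 ≤ x) (h : x ≤ 1 / 3) {a : ℕ} (ha : 1 ≤ a) : x ^ a ≤ 1 / 3 := by
  calc x ^ a ≤ x ^ 1 := pow_le_pow_of_le_one h0 (by linarith) ha
    _ = x := pow_one x
    _ ≤ 1 / 3 := h

/-- One term. -/
theorem part_le {G X t : ℝ} (hG : 0 ≤ G) (hX : 0 ≤ X) {a : ℕ} (ha : 1 ≤ a) (ht : t ≤ X ^ a) (h : 2 * G * X ≤ 1 / 3) :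
    (2 * G) ^ a * t ≤ 1 / 3 := by
  calc (2 * G) ^ a * t ≤ (2 * G) ^ a * X ^ a := mul_le_mul_of_nonneg_left ht (by positivity)
    _ = (2 * G * X) ^ a := (mul_pow _ _ _).symm
    _ ≤ 1 / 3 := pow_small (by positivity) h ha

theorem le_pow_self' {x : ℝ} (hx : 1 ≤ x) {a : ℕ} (ha : 1 ≤ a) : x ≤ x ^ a := by
  calc x = x ^ 1 := (pow_one x).symm
    _ ≤ x ^ a := pow_le_pow_right₀ hx ha

theorem core {q M M' m d a : ℕ} {r η G : ℝ} (hq : 2 ≤ q) (hM' : 1 ≤ M') (hM : M = 2 * M') (ha : 1 ≤ a)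
    (hr : 1 / (q : ℝ) ≤ r) (hη : 1 ≤ η) (hqr : (q : ℝ) ^ 4 ≤ (q * r) ^ M)
    (hG : G = 16 * 2 ^ (M ^ 2) * (6 * M ^ 2 * m) ^ (2 * M ^ 2))
    (h3 : 6 * G * (8 * 4 ^ (M ^ 2)) ≤ (q : ℝ) ^ (2 * d))
    (h1 : 6 * G * (2 * 2 ^ (5 * M ^ 2) * (q : ℝ) ^ (4 * d * M ^ 2)) ≤ η ^ m) :
    (a : ℝ) * (2 ^ a) ^ 3 * 2 ^ (M ^ 2 * a) * (6 * M ^ 2 * m) ^ (2 * (M ^ 2 * a)) *
      err (M ^ 2 * a) m d a (M * a) (M ^ 2 * a / 2) q r η ≤ 1 / 2 ^ a := by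
  have hq2 : (2 : ℝ) ≤ q := by exact_mod_cast hq
  have hq0 : (0 : ℝ) < q := by linarith
  have hr0 : 0 < r := lt_of_lt_of_le (by positivity) hr
  have hη0 : 0 < η := by linarith
  have hG0 : 0 ≤ G := by rw [hG]; positivity
  have hpre : (a : ℝ) * (2 ^ a) ^ 3 * 2 ^ (M ^ 2 * a) * (6 * M ^ 2 * m) ^ (2 * (M ^ 2 * a)) ≤ G ^ a := by
    have h2 : (a : ℝ) ≤ 2 ^ a := by
      have := (Nat.lt_two_pow_self (n := a)).le
      exact_mod_cast this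
    calc (a : ℝ) * (2 ^ a) ^ 3 * 2 ^ (M ^ 2 * a) * (6 * M ^ 2 * m) ^ (2 * (M ^ 2 * a))
        ≤ 2 ^ a * (2 ^ a) ^ 3 * 2 ^ (M ^ 2 * a) * (6 * M ^ 2 * m) ^ (2 * (M ^ 2 * a)) := by gcongr
      _ = G ^ a := by
          have e16 : (16 : ℝ) ^ a = 2 ^ a * (2 ^ a) ^ 3 := by
            rw [← pow_succ', ← pow_mul, mul_comm a, pow_mul]
            norm_num
          rw [hG, mul_pow (16 * 2 ^ (M ^ 2)) _ a, mul_pow 16 _ a, e16, ← pow_mul 2 (M ^ 2) a,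
            ← pow_mul _ (2 * M ^ 2) a, mul_assoc 2 (M ^ 2) a]
  have t1 : 2 ^ (5 * (M ^ 2 * a) + 1) * ((q : ℝ) / r) ^ (2 * d * (M ^ 2 * a)) / η ^ (m * a) ≤
      (2 * 2 ^ (5 * M ^ 2) * (q : ℝ) ^ (4 * d * M ^ 2) / η ^ m) ^ a := by
    have hqr2 : (q : ℝ) / r ≤ q ^ 2 := by
      rw [div_le_iff₀ hr0]
      have : 1 ≤ q * r := by
        rw [div_le_iff₀ hq0] at hr
        linarith
      nlinarith
    have e1 : (2 : ℝ) ^ (5 * (M ^ 2 * a) + 1) ≤ 2 ^ a * (2 ^ (5 * M ^ 2)) ^ a := by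
      rw [pow_succ, mul_comm, ← pow_mul, mul_assoc 5 (M ^ 2) a]
      exact mul_le_mul_of_nonneg_right (le_pow_self' (by norm_num) ha) (by positivity)
    have e2 : ((q : ℝ) / r) ^ (2 * d * (M ^ 2 * a)) ≤ ((q : ℝ) ^ (4 * d * M ^ 2)) ^ a := by
      calc ((q : ℝ) / r) ^ (2 * d * (M ^ 2 * a)) ≤ ((q : ℝ) ^ 2) ^ (2 * d * (M ^ 2 * a)) :=
            pow_le_pow_left₀ (by positivity) hqr2 _
        _ = ((q : ℝ) ^ (4 * d * M ^ 2)) ^ a := by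
            rw [← pow_mul, ← pow_mul]
            congr 1
            ring
    rw [div_pow (2 * 2 ^ (5 * M ^ 2) * (q : ℝ) ^ (4 * d * M ^ 2)) (η ^ m) a,
      mul_pow (2 * 2 ^ (5 * M ^ 2)) _ a, mul_pow 2 _ a, ← pow_mul η m a]
    apply div_le_div_of_nonneg_right _ (by positivity)
    exact mul_le_mul e1 e2 (by positivity) (by positivity)
  have hpow : ∀ N : ℕ, (q : ℝ) ^ (4 * N) ≤ (q * r) ^ (M * N) := by
    intro N
    rw [pow_mul, pow_mul]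
    exact pow_le_pow_left₀ (by positivity) hqr N
  have hj : M ^ 2 * a / 2 = M * (M' * a) := by
    have : M ^ 2 * a = 2 * (M * (M' * a)) := by
      calc M ^ 2 * a = M * M * a := by ring
        _ = M * (2 * M') * a := by rw [← hM]
        _ = 2 * (M * (M' * a)) := by ring
    omega
  have t2 : 8 * 2 ^ (M ^ 2 * a) * (q : ℝ) ^ (d * (M * a)) / ((q : ℝ) * r) ^ (d * (M ^ 2 * a / 2)) ≤
      (8 * 2 ^ (M ^ 2) / (q : ℝ) ^ (d * M)) ^ a := by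
    have e1 : (q : ℝ) ^ (2 * (d * (M * a))) ≤ (q * r) ^ (d * (M ^ 2 * a / 2)) := by
      have := hpow (d * (M' * a))
      rw [hj]
      calc (q : ℝ) ^ (2 * (d * (M * a))) = (q : ℝ) ^ (4 * (d * (M' * a))) := by
            congr 1
            rw [hM]
            ring
        _ ≤ (q * r) ^ (M * (d * (M' * a))) := this
        _ = (q * r) ^ (d * (M * (M' * a))) := by
            congr 1
            ring
    have e2 : (8 : ℝ) * 2 ^ (M ^ 2 * a) ≤ (8 * 2 ^ (M ^ 2)) ^ a := by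
      rw [mul_pow, ← pow_mul]
      exact mul_le_mul_of_nonneg_right (le_pow_self' (by norm_num) ha) (by positivity)
    calc 8 * 2 ^ (M ^ 2 * a) * (q : ℝ) ^ (d * (M * a)) / ((q : ℝ) * r) ^ (d * (M ^ 2 * a / 2))
        ≤ (8 * 2 ^ (M ^ 2)) ^ a * (q : ℝ) ^ (d * (M * a)) / (q : ℝ) ^ (2 * (d * (M * a))) := by gcongr
      _ = (8 * 2 ^ (M ^ 2) / (q : ℝ) ^ (d * M)) ^ a := by
          rw [div_pow, ← pow_mul, two_mul, pow_add, mul_assoc d M a]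
          field_simp
  have t3 : 8 * 4 ^ (M ^ 2 * a) * (q : ℝ) ^ (2 * d * a) / ((q : ℝ) * r) ^ (d * (M * a)) ≤
      (8 * 4 ^ (M ^ 2) / (q : ℝ) ^ (2 * d)) ^ a := by
    have e1 : (q : ℝ) ^ (2 * (2 * d * a)) ≤ (q * r) ^ (d * (M * a)) := by
      have := hpow (d * a)
      calc (q : ℝ) ^ (2 * (2 * d * a)) = (q : ℝ) ^ (4 * (d * a)) := by
            congr 1
            ring
        _ ≤ (q * r) ^ (M * (d * a)) := this
        _ = (q * r) ^ (d * (M * a)) := by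
            congr 1
            ring
    have e2 : (8 : ℝ) * 4 ^ (M ^ 2 * a) ≤ (8 * 4 ^ (M ^ 2)) ^ a := by
      rw [mul_pow, ← pow_mul]
      exact mul_le_mul_of_nonneg_right (le_pow_self' (by norm_num) ha) (by positivity)
    calc 8 * 4 ^ (M ^ 2 * a) * (q : ℝ) ^ (2 * d * a) / ((q : ℝ) * r) ^ (d * (M * a))
        ≤ (8 * 4 ^ (M ^ 2)) ^ a * (q : ℝ) ^ (2 * d * a) / (q : ℝ) ^ (2 * (2 * d * a)) := by gcongr
      _ = (8 * 4 ^ (M ^ 2) / (q : ℝ) ^ (2 * d)) ^ a := by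
          rw [div_pow, ← pow_mul, two_mul (2 * d * a), pow_add]
          field_simp
  have p1 : (2 * G) ^ a * (2 ^ (5 * (M ^ 2 * a) + 1) * ((q : ℝ) / r) ^ (2 * d * (M ^ 2 * a)) / η ^ (m * a)) ≤ 1 / 3 := by
    refine part_le hG0 (by positivity) ha t1 ?_
    rw [← mul_div_assoc, div_le_iff₀ (by positivity)]
    linarith
  have hqd : (q : ℝ) ^ (2 * d) ≤ q ^ (d * M) := by
    apply pow_le_pow_right₀ (by linarith)
    nlinarith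
  have p2 : (2 * G) ^ a * (8 * 2 ^ (M ^ 2 * a) * (q : ℝ) ^ (d * (M * a)) / ((q : ℝ) * r) ^ (d * (M ^ 2 * a / 2))) ≤
      1 / 3 := by
    refine part_le hG0 (by positivity) ha t2 ?_
    rw [← mul_div_assoc, div_le_iff₀ (by positivity)]
    have e1 : (2 : ℝ) ^ (M ^ 2) ≤ 4 ^ (M ^ 2) := pow_le_pow_left₀ (by norm_num) (by norm_num) _
    have e2 : G * 2 ^ (M ^ 2) ≤ G * 4 ^ (M ^ 2) := mul_le_mul_of_nonneg_left e1 hG0
    linarith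
  have p3 : (2 * G) ^ a * (8 * 4 ^ (M ^ 2 * a) * (q : ℝ) ^ (2 * d * a) / ((q : ℝ) * r) ^ (d * (M * a))) ≤ 1 / 3 := by
    refine part_le hG0 (by positivity) ha t3 ?_
    rw [← mul_div_assoc, div_le_iff₀ (by positivity)]
    linarith
  have herr0 : 0 ≤ err (M ^ 2 * a) m d a (M * a) (M ^ 2 * a / 2) q r η := by
    unfold err
    positivity
  rw [le_div_iff₀ (by positivity)]
  calc (a : ℝ) * (2 ^ a) ^ 3 * 2 ^ (M ^ 2 * a) * (6 * M ^ 2 * m) ^ (2 * (M ^ 2 * a)) *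
        err (M ^ 2 * a) m d a (M * a) (M ^ 2 * a / 2) q r η * 2 ^ a
      ≤ G ^ a * err (M ^ 2 * a) m d a (M * a) (M ^ 2 * a / 2) q r η * 2 ^ a :=
        mul_le_mul_of_nonneg_right (mul_le_mul_of_nonneg_right hpre herr0) (by positivity)
    _ = (2 * G) ^ a * err (M ^ 2 * a) m d a (M * a) (M ^ 2 * a / 2) q r η := by
        rw [mul_pow]
        ring
    _ ≤ 1 := by
        unfold err
        rw [mul_add, mul_add]
        linarith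

/-- Q8b: the numbers. -/
theorem numbers (q : ℕ) (hq : 2 ≤ q) (δ : ℝ) (hδ : 0 < δ) : ∃ M m d : ℕ, 2 ≤ M ∧ 1 ≤ m ∧ 1 ≤ d ∧ ∀ a : ℕ, 1 ≤ a →
    ∀ r η : ℝ, 1 / q + δ / 4 ≤ r → r ≤ 1 → 1 + δ / 8 ≤ η →
      (a : ℝ) * (2 ^ a) ^ 3 * 2 ^ (M ^ 2 * a) * (6 * M ^ 2 * m) ^ (2 * (M ^ 2 * a)) *
        err (M ^ 2 * a) m d a (M * a) (M ^ 2 * a / 2) q r η ≤ 1 / 2 ^ a := by
  have hq2 : (2 : ℝ) ≤ q := by exact_mod_cast hq
  have hq0 : (0 : ℝ) < q := by linarith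
  -- the parameter `M`
  obtain ⟨M', hM'1, hM'⟩ : ∃ M' : ℕ, 1 ≤ M' ∧ (q : ℝ) ^ 4 ≤ (1 + q * (δ / 4)) ^ M' := by
    have h1 : (1 : ℝ) < 1 + q * (δ / 4) := by
      have : 0 < q * (δ / 4) := by positivity
      linarith
    obtain ⟨N, hN⟩ := pow_unbounded_of_one_lt ((q : ℝ) ^ 4) h1
    exact ⟨max N 1, le_max_right _ _, hN.le.trans (pow_le_pow_right₀ h1.le (le_max_left _ _))⟩
  obtain ⟨M, hM⟩ : ∃ M : ℕ, M = 2 * M' := ⟨_, rfl⟩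
  -- the constants
  obtain ⟨G0, hG0⟩ : ∃ G0 : ℕ, G0 = 16 * 2 ^ (M ^ 2) * (6 * M ^ 2) ^ (2 * M ^ 2) := ⟨_, rfl⟩
  obtain ⟨K1, hK1⟩ : ∃ K1 : ℕ, K1 = 6 * G0 * (8 * 4 ^ (M ^ 2)) := ⟨_, rfl⟩
  obtain ⟨c, hc⟩ : ∃ c : ℕ, c = M ^ 2 + K1 := ⟨_, rfl⟩
  obtain ⟨Q, hQ⟩ : ∃ Q : ℕ, Q = q ^ (4 * c * M ^ 2) := ⟨_, rfl⟩
  obtain ⟨K3, hK3⟩ : ∃ K3 : ℕ, K3 = 6 * G0 * (2 * 2 ^ (5 * M ^ 2)) := ⟨_, rfl⟩
  -- the number of letters
  obtain ⟨t, ht1, ht⟩ : ∃ t : ℕ, 1 ≤ t ∧ (K3 : ℝ) * ((2 ^ t : ℕ) : ℝ) ^ (2 * M ^ 2 + Q) ≤ (1 + δ / 8) ^ (2 ^ t) := by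
    have h1 := tendsto_pow_const_div_const_pow_of_one_lt (2 * M ^ 2 + Q) (show (1 : ℝ) < 1 + δ / 8 by linarith)
    have h2 : ∀ᶠ n : ℕ in atTop, (n : ℝ) ^ (2 * M ^ 2 + Q) / (1 + δ / 8) ^ n < 1 / (K3 + 1) :=
      h1.eventually (gt_mem_nhds (by positivity))
    have h3 : Tendsto (fun t : ℕ => 2 ^ t) atTop atTop := tendsto_pow_atTop_atTop_of_one_lt (by norm_num)
    obtain ⟨t, ht, ht1⟩ := ((h3.eventually h2).and (eventually_ge_atTop 1)).exists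
    refine ⟨t, ht1, ?_⟩
    have h5 : (0 : ℝ) < (1 + δ / 8) ^ (2 ^ t) := by positivity
    rw [div_lt_div_iff₀ h5 (by positivity), one_mul] at ht
    have h4 : (0 : ℝ) ≤ ((2 ^ t : ℕ) : ℝ) ^ (2 * M ^ 2 + Q) := by positivity
    linarith
  obtain ⟨m, hm⟩ : ∃ m : ℕ, m = 2 ^ t := ⟨_, rfl⟩
  rw [← hm] at ht
  have hm1 : 1 ≤ m := by
    rw [hm]
    exact Nat.one_le_two_pow
  have hM2 : 2 ≤ M := by omega
  have hc1 : 1 ≤ c := by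
    rw [hc]
    have : 1 ≤ M ^ 2 := Nat.one_le_pow _ _ (by omega)
    omega
  refine ⟨M, m, c * t, hM2, hm1, Nat.mul_pos hc1 ht1, fun a ha r η hr hr1 hη => ?_⟩
  have hGm : (16 * 2 ^ (M ^ 2) * (6 * M ^ 2 * m) ^ (2 * M ^ 2) : ℝ) = (G0 : ℝ) * (m : ℝ) ^ (2 * M ^ 2) := by
    rw [hG0]
    push_cast
    rw [mul_pow (6 * (M : ℝ) ^ 2)]
    ring
  have hm0 : (0 : ℝ) ≤ (m : ℝ) ^ (2 * M ^ 2) := by positivity
  have hmt : (m : ℝ) ^ (2 * M ^ 2) = 4 ^ (M ^ 2 * t) := by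
    rw [hm]
    push_cast
    rw [← pow_mul, show (4 : ℝ) = 2 ^ 2 by norm_num, ← pow_mul]
    congr 1
    ring
  refine core hq hM'1 hM ha (by linarith) (by linarith) ?_ hGm.symm ?_ ?_
  · have h1 : 1 + q * (δ / 4) ≤ q * r := by
      have : q * (1 / q + δ / 4) ≤ q * r := mul_le_mul_of_nonneg_left hr hq0.le
      rw [mul_add, mul_one_div_cancel hq0.ne'] at this
      exact this
    have h0 : (1 : ℝ) ≤ 1 + q * (δ / 4) := by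
      have : 0 < q * (δ / 4) := by positivity
      linarith
    calc (q : ℝ) ^ 4 ≤ (1 + q * (δ / 4)) ^ M' := hM'
      _ ≤ (1 + q * (δ / 4)) ^ M := pow_le_pow_right₀ h0 (by omega)
      _ ≤ (q * r) ^ M := pow_le_pow_left₀ (by linarith) h1 _
  · have h1 : (K1 : ℝ) ≤ 4 ^ (K1 * t) := by
      have h2 : K1 ≤ 4 ^ (K1 * t) := by
        calc K1 ≤ 4 ^ K1 := (Nat.lt_pow_self (by norm_num)).le
          _ ≤ 4 ^ (K1 * t) := Nat.pow_le_pow_right (by norm_num) (Nat.le_mul_of_pos_right _ ht1)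
      exact_mod_cast h2
    calc 6 * ((G0 : ℝ) * (m : ℝ) ^ (2 * M ^ 2)) * (8 * 4 ^ (M ^ 2)) = K1 * (m : ℝ) ^ (2 * M ^ 2) := by
          rw [hK1]
          push_cast
          ring
      _ ≤ 4 ^ (K1 * t) * 4 ^ (M ^ 2 * t) := by
          rw [hmt]
          exact mul_le_mul_of_nonneg_right h1 (by positivity)
      _ = 4 ^ (c * t) := by
          rw [← pow_add, hc]
          congr 1
          ring
      _ ≤ (q ^ 2) ^ (c * t) := pow_le_pow_left₀ (by norm_num) (by nlinarith) _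
      _ = (q : ℝ) ^ (2 * (c * t)) := (pow_mul _ _ _).symm
  · have h1 : (q : ℝ) ^ (4 * (c * t) * M ^ 2) ≤ (m : ℝ) ^ Q := by
      have h2 : Q ≤ 2 ^ Q := (Nat.lt_two_pow_self).le
      have h3 : q ^ (4 * (c * t) * M ^ 2) ≤ m ^ Q := by
        calc q ^ (4 * (c * t) * M ^ 2) = Q ^ t := by
              rw [hQ, ← pow_mul]
              congr 1
              ring
          _ ≤ (2 ^ Q) ^ t := Nat.pow_le_pow_left h2 t
          _ = m ^ Q := by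
              rw [hm, ← pow_mul, ← pow_mul, mul_comm]
      exact_mod_cast h3
    calc 6 * ((G0 : ℝ) * (m : ℝ) ^ (2 * M ^ 2)) * (2 * 2 ^ (5 * M ^ 2) * (q : ℝ) ^ (4 * (c * t) * M ^ 2))
        ≤ 6 * ((G0 : ℝ) * (m : ℝ) ^ (2 * M ^ 2)) * (2 * 2 ^ (5 * M ^ 2) * (m : ℝ) ^ Q) := by gcongr
      _ = K3 * (m : ℝ) ^ (2 * M ^ 2 + Q) := by
          rw [hK3, pow_add]
          push_cast
          ring
      _ ≤ (1 + δ / 8) ^ m := ht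
      _ ≤ η ^ m := pow_le_pow_left₀ (by linarith) hη _

end Pool.Agent.Helper70.NQ
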